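import Pool.Agent.MP_4eca2d_nt.Main

set_option autoImplicit false

namespace Pool.Agent.Results.MP_4eca2d_nt.WeaklyLacunary

/-- There is a positive function `ω(n) = o(log n)` such that the lonely runner conjecture holds for
every `n ≥ 1` and every speed sequence `v_1 < ... < v_n` of positive integers with consecutive
ratios at least `1 + ω(n)/n`. -/
theorem result :
    ∃ ω : ℕ → ℝ, (∀ n, 0 < ω n) ∧
      Asymptotics.IsLittleO Filter.atTop ω (fun n : ℕ => Real.log (n : ℝ)) ∧
      ∀ n : ℕ, 1 ≤ n → ∀ v : Fin n → ℕ, (∀ i, 0 < v i) →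
        (∀ i j : Fin n, j.val = i.val + 1 → 1 + ω n / (n : ℝ) ≤ (v j : ℝ) / (v i : ℝ)) →
        ∃ t : ℝ, ∀ i : Fin n,
          1 / ((n : ℝ) + 1) ≤ |t * (v i : ℝ) - (round (t * (v i : ℝ)) : ℝ)| := by
  obtain ⟨ω, hω, h⟩ := LRL.main
  refine ⟨fun n => max |ω n| 1, fun n => lt_of_lt_of_le one_pos (le_max_right _ _), ?_, ?_⟩
  · have h1 : Asymptotics.IsLittleO Filter.atTop (fun _ : ℕ => (1 : ℝ))
        (fun n : ℕ => Real.log (n : ℝ)) :=
      (Asymptotics.isLittleO_const_left.2 (Or.inr
        (tendsto_norm_atTop_atTop.comp (Real.tendsto_log_atTop.comp tendsto_natCast_atTop_atTop))))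
    have h2 : Asymptotics.IsLittleO Filter.atTop (fun n : ℕ => |ω n| + 1)
        (fun n : ℕ => Real.log (n : ℝ)) := hω.norm_left.add h1
    refine Asymptotics.IsBigO.trans_isLittleO ?_ h2
    refine Asymptotics.IsBigO.of_bound 1 (Filter.Eventually.of_forall fun n => ?_)
    have h3 : (0 : ℝ) ≤ |ω n| := abs_nonneg _
    rw [Real.norm_of_nonneg (le_trans zero_le_one (le_max_right _ _)),
      Real.norm_of_nonneg (by positivity), one_mul]
    exact max_le (by linarith) (by linarith)
  · intro n hn v hv hl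
    refine h n hn v hv (fun i j hij => ?_)
    have h4 := hl i j hij
    have hvi : (0 : ℝ) < (v i : ℝ) := by exact_mod_cast hv i
    have hn0 : (0 : ℝ) < (n : ℝ) := by exact_mod_cast hn
    rw [le_div_iff₀ hvi] at h4
    refine le_trans (mul_le_mul_of_nonneg_right ?_ hvi.le) h4
    have h5 : ω n ≤ max |ω n| 1 := le_trans (le_abs_self _) (le_max_left _ _)
    have h6 := div_le_div_of_nonneg_right h5 hn0.le
    linarith

end Pool.Agent.Results.MP_4eca2d_nt.WeaklyLacunary
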